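import Mathlib
import Pool.Agent.H96R3.BC.Stmts
import Pool.Agent.H96R3.BC.FixDefs
import Pool.Agent.H394R3.BC.Cell
import Pool.Agent.H13R3.EM.Defs

/-!
# PROJECT PX (helper406): MP_a10c55_nt is false

Two entire elements of the Selberg class with real coefficients, of degrees `8 q` and `16 q`, whose error terms have
a product bounded below by a constant.  Definitions and statements of the tasks.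
-/

set_option autoImplicit false

open Finset MeasureTheory

namespace Pool.Agent.W406.PX

open Pool.Agent.H96R3.BC (vv cf NN TaskLagA)
open Pool.Agent.H394R3.BC (Ker)
open Pool.Agent.H469R10.HO (Hoheisel)

/-- weight of a prime -/
noncomputable def gw (n : ℕ) : ℝ := if n.Prime then 1 / (Real.log n) ^ 2 else 0

/-- majorant of the coefficient of a composite number -/
noncomputable def hm (X n : ℕ) : ℝ :=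
  if ¬ n.Prime ∧ Squarefree n ∧ ∀ p ∈ n.primeFactors, X < p then ∏ p ∈ n.primeFactors, (2 / (Real.log p) ^ 2) else 0

/-- mass of the primes of `(a, b]` -/
noncomputable def Gs (a b : ℕ) : ℝ := ∑ n ∈ Ioc a b, gw n

/-- mass of the composite numbers of `(a, b]` -/
noncomputable def Hs (X a b : ℕ) : ℝ := ∑ n ∈ Ioc a b, hm X n

/-- admissible cell boundaries -/
def Bdy (q j₁ : ℕ) (b : ℕ → ℕ) : Prop :=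
  ∀ j, j₁ ≤ j → j ^ (2 * q) ≤ b j ∧ 8 * b j ≤ 7 * j ^ (2 * q) + (j + 1) ^ (2 * q)

/-- good cell boundaries: near `b j` the composite numbers have a small mass compared with the primes -/
def GoodB (K : ℝ) (q j₁ : ℕ) (b : ℕ → ℕ) : Prop := ∀ j, j₁ ≤ j → ∀ x : ℕ, b j ≤ x → x ≤ b (j + 1) →
  K * Hs (j₁ ^ (2 * q)) (b j) x ≤ Gs (b j) x ∧ K * Hs (j₁ ^ (2 * q)) x (b (j + 1)) ≤ Gs x (b (j + 1)) + 1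

/-- the coefficients at the composite numbers -/
noncomputable def cN (y : ℕ → ℝ) (n : ℕ) : ℝ := if n.Prime then 0 else cf y n

/-! ## Part 1: primes, composite numbers, good boundaries -/

/-- TASK MASS (from `Pool.Agent.H394R3.ET.taskMach`, whose first component is `Mass q j₁ s'`). -/
def TaskMass : Prop := ∃ q₀ : ℕ, ∀ q : ℕ, q₀ ≤ q → ∀ s' : ℝ, 0 < s' → ∃ J₀ : ℕ, ∀ j₁ : ℕ, J₀ ≤ j₁ →
  ∀ j : ℕ, j₁ ≤ j → ∀ A B : ℕ, j ^ (2 * q) ≤ A → B ≤ (j + 3) ^ (2 * q) →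
    Hs (j₁ ^ (2 * q)) A B ≤ s' * (j : ℝ) ^ (2 * q - 1) / (Real.log j) ^ 3

/-- TASK PR (Hoheisel `Pool.Agent.H469R10.HO.hoheisel`, Brun-Titchmarsh `BT2`): mass of the primes of an interval which
is not much shorter than a cell. -/
def TaskPr : Prop := ∃ q₀ : ℕ, ∀ q : ℕ, q₀ ≤ q → ∃ η : ℝ, 0 < η ∧ ∀ θ : ℝ, 0 < θ → ∃ J₀ : ℕ, ∀ j : ℕ, J₀ ≤ j →
  ∀ A B : ℕ, j ^ (2 * q) ≤ A → B ≤ (j + 3) ^ (2 * q) → θ * (j : ℝ) ^ (2 * q - 1) ≤ (B : ℝ) - A →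
    η * ((B : ℝ) - A) / (Real.log j) ^ 3 ≤ Gs A B ∧ η * Gs A B ≤ ((B : ℝ) - A) / (Real.log j) ^ 3 ∧
    η * ((B : ℝ) - A) / Real.log j ≤ (((Ioc A B).filter Nat.Prime).card : ℝ)

/-- TASK MAX (two-sided maximal inequality). -/
def TaskMax : Prop := ∀ (g h : ℕ → ℝ) (K : ℝ) (a A B c : ℕ), (∀ n, 0 ≤ g n) → (∀ n, 0 ≤ h n) → 0 ≤ K →
  a ≤ A → A ≤ B → B ≤ c → K * (∑ n ∈ Ioc A c, h n + ∑ n ∈ Ioc a B, h n) < ∑ n ∈ Ioc A B, g n →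
  ∃ p ∈ Ioc A B, 0 < g p ∧
    (∀ x : ℕ, p ≤ x → x ≤ c → K * ∑ n ∈ Ioc (p - 1) x, h n ≤ ∑ n ∈ Ioc (p - 1) x, g n) ∧
    (∀ x : ℕ, a ≤ x → x < p → K * ∑ n ∈ Ioc x p, h n ≤ ∑ n ∈ Ioc x p, g n)

/-- good boundaries exist -/
def Good : Prop := ∃ q₀ : ℕ, ∀ q : ℕ, q₀ ≤ q → ∀ K : ℝ, 0 < K → ∃ J₀ : ℕ, ∀ j₁ : ℕ, J₀ ≤ j₁ →
  ∃ b : ℕ → ℕ, Bdy q j₁ b ∧ GoodB K q j₁ b

/-- TASK GOOD: `b j = p j - 1` with `p j` from TASK MAX. -/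
def TaskGood : Prop := TaskMass → TaskPr → TaskMax → Good

/-! ## Part 2: the forcing -/

/-- TASK NULL (abstract): the alternating null vector of the moments of nonnegative functions on adjacent intervals
(minors of the matrix of moments, Vandermonde determinants). -/
def TaskNull : Prop := ∀ m : ℕ, 1 ≤ m → ∀ η : ℝ, 0 < η → ∃ c₀ : ℝ, 0 < c₀ ∧
  ∀ (h M : ℝ) (a : ℕ → ℝ) (Ψ : ℕ → ℝ → ℝ), 0 < h → 0 < M →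
  (∀ i < m, h ≤ a (i + 1) - a i ∧ a (i + 1) - a i ≤ 2 * h) →
  (∀ i < m, IntegrableOn (Ψ i) (Set.Icc (a i) (a (i + 1)))) →
  (∀ i < m, ∀ u, 0 ≤ Ψ i u) →
  (∀ i < m, ∫ u in (a i)..(a (i + 1)), Ψ i u ≤ M) →
  (∀ i < m, η * M ≤ ∫ u in (a i + h / 4)..(a (i + 1) - h / 4), Ψ i u) →
  ∃ c : ℕ → ℝ, (∀ i < m, c₀ ≤ (-1) ^ i * c i ∧ (-1) ^ i * c i ≤ 1) ∧
    ∀ P : Polynomial ℝ, P.natDegree + 2 ≤ m → ∑ i ∈ range m, c i * ∫ u in (a i)..(a (i + 1)), Ψ i u * P.eval u = 0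

/-- TASK CELLF: the forcing in one cell. -/
def TaskCellF : Prop := TaskPr → ∃ q₀ : ℕ, ∀ q : ℕ, q₀ ≤ q → ∃ c₁ : ℝ, 0 < c₁ ∧ ∃ J₀ : ℕ, ∀ j : ℕ, J₀ ≤ j → ∀ A B : ℕ,
  j ^ (2 * q) ≤ A → 8 * A ≤ 7 * j ^ (2 * q) + (j + 1) ^ (2 * q) →
  (j + 1) ^ (2 * q) ≤ B → 8 * B ≤ 7 * (j + 1) ^ (2 * q) + (j + 2) ^ (2 * q) →
  ∃ ψ : ℕ → ℝ, (∀ n, |ψ n| ≤ gw n / 2) ∧ (∀ n, n ∉ Ioc A B → ψ n = 0) ∧ ∑ n ∈ Ioc A B, ψ n = 0 ∧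
    ∀ x : ℕ, A ≤ x → x ≤ B → c₁ * min (Gs A x) (Gs x B) ≤ ∑ n ∈ Ioc A x, ψ n

/-- conditions on the forcing for the nodes `vv Q j'`; cells `(b j, b (j+1)]`, groups of `m` cells -/
structure Frc (q j₁ m Q j' : ℕ) (b : ℕ → ℕ) (s : ℕ → ℝ) : Prop where
  supp : ∀ n, s n ≠ 0 → n.Prime ∧ b j₁ < n
  bd : ∀ n, |s n| ≤ gw n / 2
  cell : ∀ j, j₁ ≤ j → ∑ n ∈ Ioc (b j) (b (j + 1)), s n = 0
  mom : ∀ g : ℕ, ∀ P : Polynomial ℝ, P.natDegree < 4 * Q + 4 →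
    ∑ n ∈ Ioc (b (j₁ + m * g)) (b (j₁ + m * (g + 1))), s n * (vv Q j' n) ^ 2 * P.eval (vv Q j' n) = 0

/-- existence of the forcing, for both systems of nodes -/
def Force : Prop := ∃ q₀ : ℕ, ∀ q : ℕ, q₀ ≤ q → ∃ m : ℕ, 1 ≤ m ∧ ∃ c₀ : ℝ, 0 < c₀ ∧ ∃ J₀ : ℕ, ∀ j₀ : ℕ, J₀ ≤ j₀ →
  ∀ b : ℕ → ℕ, Bdy q (j₀ ^ 2) b → ∃ s : ℕ → ℝ, Frc q (j₀ ^ 2) m q (j₀ ^ 2) b s ∧ Frc q (j₀ ^ 2) m (2 * q) j₀ b s ∧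
    ∀ j, j₀ ^ 2 ≤ j → ∃ e : ℝ, (e = 1 ∨ e = -1) ∧ ∀ x : ℕ, b j ≤ x → x ≤ b (j + 1) →
      c₀ * min (Gs (b j) x) (Gs x (b (j + 1))) ≤ e * ∑ n ∈ Ioc (b j) x, s n

/-! ## Part 3: the abstract machine -/

/-- boundary nodes -/
noncomputable def be (Q j' : ℕ) (B : ℕ → ℕ) (i : ℕ) : ℝ := vv Q j' (B i)

/-- size of the density -/
noncomputable def kp (Q j' : ℕ) : ℝ := (j' : ℝ) ^ Q

/-- mass of a cell -/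
noncomputable def mm (Q j' : ℕ) (B : ℕ → ℕ) (i : ℕ) : ℝ :=
  2 * (Ioc (B i) (B (i + 1))).card * be Q j' B (i + 1) ^ 2 + 3 * kp Q j' * be Q j' B (i + 1) ^ (3 * Q + 3)

noncomputable def qA (Q j' : ℕ) (B : ℕ → ℕ) (i : ℕ) : ℝ :=
  mm Q j' B i * (be Q j' B (i + 1) - be Q j' B i) ^ (4 * Q + 4)

noncomputable def qB (Q j' : ℕ) (B : ℕ → ℕ) (i : ℕ) : ℝ :=
  mm Q j' B i * (be Q j' B (i + 1) - be Q j' B i) ^ (2 * Q + 1) / be Q j' B i ^ (3 * Q + 2)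

noncomputable def rA (Q j' m : ℕ) (B : ℕ → ℕ) (g : ℕ) : ℝ :=
  (Ioc (B (m * g)) (B (m * (g + 1)))).card * be Q j' B (m * (g + 1)) ^ 2 *
    (be Q j' B (m * (g + 1)) - be Q j' B (m * g)) ^ (4 * Q + 4)

noncomputable def rB (Q j' m : ℕ) (B : ℕ → ℕ) (g : ℕ) : ℝ :=
  (Ioc (B (m * g)) (B (m * (g + 1)))).card * be Q j' B (m * (g + 1)) ^ 2 *
    (be Q j' B (m * (g + 1)) - be Q j' B (m * g)) ^ (2 * Q + 1) / be Q j' B (m * g) ^ (3 * Q + 2)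

/-- a system: cells `(B i, B (i+1)]`, nodes `vv Q j'`, interpolation weights `w` -/
structure Sys (Q j' : ℕ) (B : ℕ → ℕ) (w : ℕ → ℝ → ℝ) (ε : ℝ) (ω : ℕ → ℝ) : Prop where
  hQ : 8 ≤ Q
  hj : 16 ≤ j'
  hε : 0 < ε ∧ ε ≤ 1 / 2
  low : j' ^ (2 * Q) ≤ B 0
  mono : StrictMono B
  ratio : ∀ i, be Q j' B (i + 1) ≤ 2 * be Q j' B i
  first : be Q j' B 0 ≤ 2 ∧ be Q j' B 0 ^ (3 * Q + 2) * (be Q j' B 0 - 1) ≤ 1 / 300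
  wcont : ∀ p, Continuous (w p)
  wsupp : ∀ p u, w p u ≠ 0 → p.Prime ∧ B 0 < p
  wbd : ∀ i, ∀ p ∈ Ioc (B i) (B (i + 1)), ∀ u, be Q j' B i ≤ u → u ≤ be Q j' B (i + 1) → |w p u| ≤ ω i
  wmom : ∀ i, ∀ u, be Q j' B i ≤ u → u ≤ be Q j' B (i + 1) → ∀ P : Polynomial ℝ, P.natDegree < 4 * Q + 4 →
    ∑ p ∈ Ioc (B i) (B (i + 1)), w p u * P.eval (vv Q j' p) = P.eval u
  small : ∀ i, ∀ p ∈ Ioc (B i) (B (i + 1)), p.Prime →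
    8 * ω i * (3 * kp Q j' * be Q j' B (i + 1) ^ (3 * Q + 1) + Hs (j' ^ (2 * Q)) (B i) (B (i + 1))) ≤ ε * gw p
  Hle : ∀ i, Hs (j' ^ (2 * Q)) (B i) (B (i + 1)) ≤ ((Ioc (B i) (B (i + 1))).card : ℝ)
  sumA : Summable (qA Q j' B) ∧ ∑' i, qA Q j' B i ≤ kp Q j' / 16
  sumB : Summable (qB Q j' B) ∧ ∑' i, qB Q j' B i ≤ kp Q j' / 16

/-- an admissible source -/
structure SrcOK (Q j' m : ℕ) (B : ℕ → ℕ) (s : ℕ → ℝ) : Prop where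
  hm : 1 ≤ m
  supp : ∀ n, s n ≠ 0 → n.Prime ∧ B 0 < n
  bd : ∀ n, |s n| ≤ gw n / 2
  mom : ∀ g : ℕ, ∀ P : Polynomial ℝ, P.natDegree < 4 * Q + 4 →
    ∑ n ∈ Ioc (B (m * g)) (B (m * (g + 1))), s n * (vv Q j' n) ^ 2 * P.eval (vv Q j' n) = 0
  sumA : Summable (rA Q j' m B) ∧ ∑' g, rA Q j' m B g ≤ kp Q j' / 16
  sumB : Summable (rB Q j' m B) ∧ ∑' g, rB Q j' m B g ≤ kp Q j' / 16

/-- the mass transferred through the boundary `i` -/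
noncomputable def Zf (Q j' : ℕ) (B : ℕ → ℕ) (f : ℝ → ℝ) (i : ℕ) : ℝ :=
  (∫ u in (be Q j' B 0)..(be Q j' B i), f u / u ^ 2) * be Q j' B i ^ 2

/-- the functional of the cell `i` for the coefficients `a` and the density `f` -/
noncomputable def cZ (Q j' : ℕ) (B : ℕ → ℕ) (a : ℕ → ℝ) (f : ℝ → ℝ) (i : ℕ) (g : ℝ → ℝ) : ℝ :=
  ∑ n ∈ Ioc (B i) (B (i + 1)), a n * (vv Q j' n) ^ 2 * g (vv Q j' n)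
    - Zf Q j' B f i * g (be Q j' B i) + Zf Q j' B f (i + 1) * g (be Q j' B (i + 1))
    - ∫ u in (be Q j' B i)..(be Q j' B (i + 1)), f u * g u

/-- the response at the prime `p` of the cell `i` -/
noncomputable def XL (Q j' : ℕ) (B : ℕ → ℕ) (w : ℕ → ℝ → ℝ) (c : ℕ → ℝ) (f : ℝ → ℝ) (i p : ℕ) : ℝ :=
  ((∫ u in (be Q j' B i)..(be Q j' B (i + 1)), f u * w p u)
    + Zf Q j' B f i * w p (be Q j' B i) - Zf Q j' B f (i + 1) * w p (be Q j' B (i + 1))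
    - ∑ n ∈ Ioc (B i) (B (i + 1)), c n * (vv Q j' n) ^ 2 * w p (vv Q j' n)) / (vv Q j' p) ^ 2

/-- coefficients of the cell `i` after the response -/
noncomputable def co (Q j' : ℕ) (B : ℕ → ℕ) (w : ℕ → ℝ → ℝ) (c : ℕ → ℝ) (f : ℝ → ℝ) (i n : ℕ) : ℝ :=
  c n + (if n.Prime then XL Q j' B w c f i n else 0)

/-- contribution of the cell `i` to the new density -/
noncomputable def BL (Q j' : ℕ) (B : ℕ → ℕ) (w : ℕ → ℝ → ℝ) (c : ℕ → ℝ) (f : ℝ → ℝ) (i : ℕ) (v : ℝ) : ℝ :=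
  cZ Q j' B (co Q j' B w c f i) f i (fun u => Ker (4 * Q + 3) u v)

/-- new density, linear part -/
noncomputable def FL (Q j' : ℕ) (B : ℕ → ℕ) (w : ℕ → ℝ → ℝ) (c : ℕ → ℝ) (f : ℝ → ℝ) (v : ℝ) : ℝ :=
  -(∫ u in (0:ℝ)..(be Q j' B 0), f u * Ker (4 * Q + 3) u v) + ∑' i : ℕ, BL Q j' B w c f i v

/-- contribution of the group `g` of the source -/
noncomputable def Sg (Q j' m : ℕ) (B : ℕ → ℕ) (s : ℕ → ℝ) (g : ℕ) (v : ℝ) : ℝ :=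
  ∑ n ∈ Ioc (B (m * g)) (B (m * (g + 1))), s n * (vv Q j' n) ^ 2 * Ker (4 * Q + 3) (vv Q j' n) v

/-- size conditions on the data of the linear maps -/
def Bdd (Q j' : ℕ) (B : ℕ → ℕ) (D : ℝ) (c : ℕ → ℝ) (f : ℝ → ℝ) : Prop := 0 ≤ D ∧ Continuous f ∧
  (∀ i, ∑ n ∈ Ioc (B i) (B (i + 1)), |c n| ≤ D * Hs (j' ^ (2 * Q)) (B i) (B (i + 1))) ∧
  (∀ v : ℝ, 0 ≤ v → |f v| ≤ D * (kp Q j' * NN Q v))

/-- TASK MOM: vanishing moments of the cells. -/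
def TaskMom : Prop := ∀ (Q j' : ℕ) (B : ℕ → ℕ) (w : ℕ → ℝ → ℝ) (ε : ℝ) (ω : ℕ → ℝ), Sys Q j' B w ε ω →
  ∀ (c : ℕ → ℝ) (f : ℝ → ℝ), Continuous f → ∀ (i : ℕ) (P : Polynomial ℝ), P.natDegree < 4 * Q + 4 →
    cZ Q j' B (co Q j' B w c f i) f i (fun u => P.eval u) = 0

/-- TASK MSS: sizes of the response, of the transferred masses and total mass of a cell. -/
def TaskMss : Prop := ∀ (Q j' : ℕ) (B : ℕ → ℕ) (w : ℕ → ℝ → ℝ) (ε : ℝ) (ω : ℕ → ℝ), Sys Q j' B w ε ω →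
  ∀ (D : ℝ) (c : ℕ → ℝ) (f : ℝ → ℝ), Bdd Q j' B D c f → ∀ i : ℕ,
    (∀ p ∈ Ioc (B i) (B (i + 1)), p.Prime → |XL Q j' B w c f i p| ≤ D / 2 * (ε * gw p)) ∧
    |Zf Q j' B f i| ≤ D * (kp Q j' * be Q j' B i ^ (3 * Q + 3)) ∧
    ∑ n ∈ Ioc (B i) (B (i + 1)), |co Q j' B w c f i n| * (vv Q j' n) ^ 2 + |Zf Q j' B f i| + |Zf Q j' B f (i + 1)| +
      ∫ u in (be Q j' B i)..(be Q j' B (i + 1)), |f u| ≤ D * mm Q j' B i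

/-- bounds of the contributions of the cells -/
def Blz : Prop := ∀ (Q j' : ℕ) (B : ℕ → ℕ) (w : ℕ → ℝ → ℝ) (ε : ℝ) (ω : ℕ → ℝ),
  Sys Q j' B w ε ω → ∀ (D : ℝ) (c : ℕ → ℝ) (f : ℝ → ℝ), Bdd Q j' B D c f → ∀ i : ℕ,
    (∀ v : ℝ, 0 ≤ v → |BL Q j' B w c f i v| ≤ D * qA Q j' B i * v ^ (8 * Q + 7)) ∧
    (∀ v : ℝ, 0 ≤ v → |BL Q j' B w c f i v| ≤ D * qB Q j' B i * v ^ (3 * Q + 2)) ∧
    Continuous (fun v : ℝ => BL Q j' B w c f i v)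

/-- TASK BLZ. -/
def TaskBlz : Prop := TaskMom → TaskMss → Blz

/-- TASK FST: the contribution of `[0, be 0]`. -/
def TaskFst : Prop := ∀ (Q j' : ℕ) (B : ℕ → ℕ) (w : ℕ → ℝ → ℝ) (ε : ℝ) (ω : ℕ → ℝ), Sys Q j' B w ε ω →
  ∀ (D : ℝ) (f : ℝ → ℝ), 0 ≤ D → Continuous f → (∀ v : ℝ, 0 ≤ v → |f v| ≤ D * (kp Q j' * NN Q v)) →
  (∀ v : ℝ, 0 ≤ v →
    |∫ u in (0:ℝ)..(be Q j' B 0), f u * Ker (4 * Q + 3) u v| ≤ D * (kp Q j' / 4 * NN Q v)) ∧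
  Continuous (fun v : ℝ => ∫ u in (0:ℝ)..(be Q j' B 0), f u * Ker (4 * Q + 3) u v)

/-- bound and continuity of the new density -/
def Flz : Prop := ∀ (Q j' : ℕ) (B : ℕ → ℕ) (w : ℕ → ℝ → ℝ) (ε : ℝ) (ω : ℕ → ℝ),
  Sys Q j' B w ε ω → ∀ (D : ℝ) (c : ℕ → ℝ) (f : ℝ → ℝ), Bdd Q j' B D c f →
    (∀ v : ℝ, 0 ≤ v → |FL Q j' B w c f v| ≤ D / 2 * (kp Q j' * NN Q v)) ∧
    Continuous (fun v : ℝ => FL Q j' B w c f (max v 0)) ∧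
    (∀ v : ℝ, 0 ≤ v → Summable fun i => BL Q j' B w c f i v)

/-- TASK FLZ. -/
def TaskFlz : Prop := Blz → TaskFst → Flz

/-- TASK LIN: linearity of the maps. -/
def TaskLin : Prop := ∀ (Q j' : ℕ) (B : ℕ → ℕ) (w : ℕ → ℝ → ℝ) (ε : ℝ) (ω : ℕ → ℝ), Sys Q j' B w ε ω →
  ∀ (c c' : ℕ → ℝ) (f f' : ℝ → ℝ), Continuous f → Continuous f' →
    (∀ i p, XL Q j' B w (fun n => c n - c' n) (fun u => f u - f' u) i p =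
      XL Q j' B w c f i p - XL Q j' B w c' f' i p) ∧
    (∀ i v, BL Q j' B w (fun n => c n - c' n) (fun u => f u - f' u) i v =
      BL Q j' B w c f i v - BL Q j' B w c' f' i v) ∧
    ∀ v, (Summable fun i => BL Q j' B w c f i v) → (Summable fun i => BL Q j' B w c' f' i v) →
      FL Q j' B w (fun n => c n - c' n) (fun u => f u - f' u) v = FL Q j' B w c f v - FL Q j' B w c' f' v

/-- TASK SRC: bounds of the source. -/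
def TaskSrc : Prop := ∀ (Q j' m : ℕ) (B : ℕ → ℕ) (w : ℕ → ℝ → ℝ) (ε : ℝ) (ω : ℕ → ℝ), Sys Q j' B w ε ω →
  ∀ s : ℕ → ℝ, SrcOK Q j' m B s →
    (∀ g, ∀ v : ℝ, 0 ≤ v → |Sg Q j' m B s g v| ≤ rA Q j' m B g * v ^ (8 * Q + 7)) ∧
    (∀ g, ∀ v : ℝ, 0 ≤ v → |Sg Q j' m B s g v| ≤ rB Q j' m B g * v ^ (3 * Q + 2)) ∧
    (∀ v : ℝ, 0 ≤ v → Summable fun g => Sg Q j' m B s g v) ∧
    (∀ v : ℝ, 0 ≤ v → |∑' g, Sg Q j' m B s g v| ≤ kp Q j' / 16 * NN Q v) ∧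
    Continuous (fun v : ℝ => ∑' g, Sg Q j' m B s g (max v 0))

/-- the solution: response `x`, density `f` -/
structure Out (Q j' m : ℕ) (B : ℕ → ℕ) (w : ℕ → ℝ → ℝ) (ε : ℝ) (s x : ℕ → ℝ) (f : ℝ → ℝ) : Prop where
  xsupp : ∀ n, x n ≠ 0 → n.Prime ∧ B 0 < n
  xbd : ∀ n, |x n| ≤ ε * gw n
  fcont : Continuous f
  fbd : ∀ v : ℝ, 0 ≤ v → |f v| ≤ kp Q j' * NN Q v
  mass : ∀ i, ∑ n ∈ Ioc (B i) (B (i + 1)), |cN (fun n => s n + x n) n| ≤ Hs (j' ^ (2 * Q)) (B i) (B (i + 1))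
  xeq : ∀ i, ∀ p ∈ Ioc (B i) (B (i + 1)), p.Prime → x p = XL Q j' B w (cN (fun n => s n + x n)) f i p
  feq : ∀ v : ℝ, 0 ≤ v → f v = (vv Q j' 1) ^ 2 * Ker (4 * Q + 3) (vv Q j' 1) v
    + FL Q j' B w (cN (fun n => s n + x n)) f v + ∑' g, Sg Q j' m B s g v

/-- TASK FIX: Picard iteration (as in `Pool.Agent.H394R3.ET.fix3`). -/
def TaskFix : Prop := TaskMss → Flz → TaskLin → TaskSrc →
  ∀ (Q j' m : ℕ) (B : ℕ → ℕ) (w : ℕ → ℝ → ℝ) (ε : ℝ) (ω : ℕ → ℝ), Sys Q j' B w ε ω →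
  ∀ s : ℕ → ℝ, SrcOK Q j' m B s → ∃ (x : ℕ → ℝ) (f : ℝ → ℝ), Out Q j' m B w ε s x f

/-- the theta relation of weight `4 Q + 4` -/
def Theta (Q j' : ℕ) (y : ℕ → ℝ) : Prop := ∀ t : ℝ, 0 < t →
  ∑' n : ℕ, cf y n * (vv Q j' n) ^ 2 * Real.exp (-(vv Q j' n / t)) =
    t ^ (4 * Q + 4) * ∑' n : ℕ, cf y n * (vv Q j' n) ^ 2 * Real.exp (-(vv Q j' n * t))

/-- TASK THETA (from `Pool.Agent.H394R3.BC.theta_rel`). -/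
def TaskTheta : Prop := Blz → TaskSrc →
  ∀ (Q j' m : ℕ) (B : ℕ → ℕ) (w : ℕ → ℝ → ℝ) (ε : ℝ) (ω : ℕ → ℝ), Sys Q j' B w ε ω →
  ∀ (s x : ℕ → ℝ) (f : ℝ → ℝ), SrcOK Q j' m B s → Out Q j' m B w ε s x f → Theta Q j' (fun n => s n + x n)

/-- TASK BDD: the summatory function is bounded at the boundaries. -/
def TaskBdd : Prop := TaskMom → TaskMss →
  ∀ (Q j' m : ℕ) (B : ℕ → ℕ) (w : ℕ → ℝ → ℝ) (ε : ℝ) (ω : ℕ → ℝ), Sys Q j' B w ε ω →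
  ∀ (s x : ℕ → ℝ) (f : ℝ → ℝ), SrcOK Q j' m B s → (∀ i, ∑ n ∈ Ioc (B i) (B (i + 1)), s n = 0) →
  Out Q j' m B w ε s x f → ∃ C : ℝ, ∀ i : ℕ, |∑ n ∈ Icc 1 (B i), cf (fun n => s n + x n) n| ≤ C

/-! ## Part 4: the parameters -/

/-- TASK GEOM: nodes of the boundaries. -/
def TaskGeom : Prop := ∃ q₀ : ℕ, ∀ q : ℕ, q₀ ≤ q → ∀ Q : ℕ, (Q = q ∨ Q = 2 * q) → ∀ m : ℕ, 1 ≤ m → ∃ C : ℝ, 1 ≤ C ∧
  ∃ J₀ : ℕ, ∀ j₁ j' : ℕ, J₀ ≤ j' → j' ^ (2 * Q) = j₁ ^ (2 * q) → ∀ b : ℕ → ℕ, Bdy q j₁ b →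
    j' ≤ j₁ ∧ (1 ≤ vv Q j' (b j₁) ∧ vv Q j' (b j₁) ≤ 1 + C / j₁) ∧ ∀ j, j₁ ≤ j →
      b j < b (j + 1) ∧ vv Q j' (b j) < vv Q j' (b (j + 1)) ∧
      vv Q j' (b (j + m)) - vv Q j' (b j) ≤ C * vv Q j' (b j) / j ∧
      vv Q j' (b (j + m)) ≤ 2 * vv Q j' (b j) ∧
      vv Q j' (b j) ^ 2 ≤ 2 * (j : ℝ) / j₁ ∧ vv Q j' (b j) ^ (2 * Q) ≤ (2 * (j : ℝ) / j₁) ^ q ∧
      (b (j + m) : ℝ) - b j ≤ C * (j : ℝ) ^ (2 * q - 1) ∧ (j : ℝ) ^ (2 * q - 1) ≤ (b (j + 1) : ℝ) - b j ∧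
      (b (j + 1) : ℝ) ≤ (j : ℝ) ^ (2 * q + 1)

/-- TASK GEOM2: the boundaries in the coordinate `vv (2 q) j₀`. -/
def TaskGeom2 : Prop := ∃ q₀ : ℕ, ∀ q : ℕ, q₀ ≤ q → ∀ m : ℕ, 1 ≤ m → ∃ J₀ : ℕ, ∀ j₀ : ℕ, J₀ ≤ j₀ →
  ∀ b : ℕ → ℕ, Bdy q (j₀ ^ 2) b → ∀ j : ℕ, j₀ ^ 2 ≤ j → ∃ h : ℝ, 0 < h ∧ ∀ i < m,
    h ≤ vv (2 * q) j₀ (b (j + i + 1)) - vv (2 * q) j₀ (b (j + i)) ∧
    vv (2 * q) j₀ (b (j + i + 1)) - vv (2 * q) j₀ (b (j + i)) ≤ 2 * h ∧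
    ∀ u : ℝ, vv (2 * q) j₀ (b (j + i)) + h / 4 ≤ u → u ≤ vv (2 * q) j₀ (b (j + i + 1)) - h / 4 →
      ∃ x : ℕ, (b (j + i) : ℝ) + ((b (j + i + 1) : ℝ) - b (j + i)) / 16 ≤ x ∧
        (x : ℝ) ≤ (b (j + i + 1) : ℝ) - ((b (j + i + 1) : ℝ) - b (j + i)) / 16 ∧
        ∀ n : ℕ, vv (2 * q) j₀ n ≤ u ↔ n ≤ x

/-- TASK SUMS: convergent sums. -/
def TaskSums : Prop := TaskGeom → ∃ q₀ : ℕ, ∀ q : ℕ, q₀ ≤ q → ∀ Q : ℕ, (Q = q ∨ Q = 2 * q) → ∀ m : ℕ, 1 ≤ m →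
  ∃ J₀ : ℕ, ∀ j₁ j' : ℕ, J₀ ≤ j' → j' ^ (2 * Q) = j₁ ^ (2 * q) → ∀ b : ℕ → ℕ, Bdy q j₁ b →
    (Summable (qA Q j' (fun i => b (j₁ + i))) ∧ ∑' i, qA Q j' (fun i => b (j₁ + i)) i ≤ kp Q j' / 16) ∧
    (Summable (qB Q j' (fun i => b (j₁ + i))) ∧ ∑' i, qB Q j' (fun i => b (j₁ + i)) i ≤ kp Q j' / 16) ∧
    (Summable (rA Q j' m (fun i => b (j₁ + i))) ∧ ∑' i, rA Q j' m (fun i => b (j₁ + i)) i ≤ kp Q j' / 16) ∧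
    (Summable (rB Q j' m (fun i => b (j₁ + i))) ∧ ∑' i, rB Q j' m (fun i => b (j₁ + i)) i ≤ kp Q j' / 16)

/-- TASK SML: the response is small. -/
def TaskSml : Prop := TaskGeom → TaskMass → ∃ q₀ : ℕ, ∀ q : ℕ, q₀ ≤ q → ∀ Q : ℕ, (Q = q ∨ Q = 2 * q) → ∀ C ε : ℝ, 0 < C → 0 < ε →
  ∃ J₀ : ℕ, ∀ j₁ j' : ℕ, J₀ ≤ j' → j' ^ (2 * Q) = j₁ ^ (2 * q) → ∀ b : ℕ → ℕ, Bdy q j₁ b → ∀ j, j₁ ≤ j →
    (∀ p ∈ Ioc (b j) (b (j + 1)), p.Prime →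
      8 * (C * Real.log j / (j : ℝ) ^ (2 * q - 1)) * (3 * kp Q j' * vv Q j' (b (j + 1)) ^ (3 * Q + 1) +
        Hs (j' ^ (2 * Q)) (b j) (b (j + 1))) ≤ ε * gw p) ∧
    Hs (j' ^ (2 * Q)) (b j) (b (j + 1)) ≤ ((Ioc (b j) (b (j + 1))).card : ℝ)

/-- TASK WTS: interpolation weights on the primes of the cells (as in `Pool.Agent.H96R3.BC.Lag568.taskLag`). -/
def TaskWts : Prop := TaskLagA → TaskPr → TaskGeom → ∃ q₀ : ℕ, ∀ q : ℕ, q₀ ≤ q → ∀ Q : ℕ, (Q = q ∨ Q = 2 * q) →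
  ∃ C : ℝ, 0 < C ∧ ∃ J₀ : ℕ, ∀ j₁ j' : ℕ, J₀ ≤ j' → j' ^ (2 * Q) = j₁ ^ (2 * q) → ∀ b : ℕ → ℕ, Bdy q j₁ b →
  ∃ w : ℕ → ℝ → ℝ, (∀ p, Continuous (w p)) ∧ (∀ p u, w p u ≠ 0 → p.Prime ∧ b j₁ < p) ∧
    ∀ j, j₁ ≤ j → ∀ u, vv Q j' (b j) ≤ u → u ≤ vv Q j' (b (j + 1)) →
      (∀ p ∈ Ioc (b j) (b (j + 1)), |w p u| ≤ C * Real.log j / (j : ℝ) ^ (2 * q - 1)) ∧
      ∀ P : Polynomial ℝ, P.natDegree < 4 * Q + 4 →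
        ∑ p ∈ Ioc (b j) (b (j + 1)), w p u * P.eval (vv Q j' p) = P.eval u

/-- TASK FORCEA: assembly of the forcing (`m = 8 q + 11`, Abel summation). -/
def TaskForceA : Prop := TaskPr → TaskNull → TaskCellF → TaskGeom → TaskGeom2 → Force

/-- the machine: existence of the response for every forcing -/
def Machine : Prop := ∃ q₀ : ℕ, ∀ q : ℕ, q₀ ≤ q → ∀ Q : ℕ, (Q = q ∨ Q = 2 * q) → ∀ m : ℕ, 1 ≤ m → ∀ ε : ℝ, 0 < ε →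
  ∃ J₀ : ℕ, ∀ j₁ j' : ℕ, J₀ ≤ j' → j' ^ (2 * Q) = j₁ ^ (2 * q) → ∀ b : ℕ → ℕ, Bdy q j₁ b →
  ∀ s : ℕ → ℝ, Frc q j₁ m Q j' b s → ∃ x : ℕ → ℝ, (∀ n, x n ≠ 0 → n.Prime ∧ b j₁ < n) ∧ (∀ n, |x n| ≤ ε * gw n) ∧
    Theta Q j' (fun n => s n + x n) ∧
    ∃ C : ℝ, ∀ j : ℕ, j₁ ≤ j → |∑ n ∈ Icc 1 (b j), cf (fun n => s n + x n) n| ≤ C

/-- TASK FIN: the product of the summatory functions is bounded below. -/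
def TaskFin : Prop := Good → Force → Machine → ∃ (q : ℕ) (y₁ y₂ : ℕ → ℝ) (j₁ j₂ : ℕ), 8 ≤ q ∧ 3 ≤ j₁ ∧ 3 ≤ j₂ ∧
  (∀ n, |y₁ n| ≤ 1) ∧ (∀ n, |y₂ n| ≤ 1) ∧ Theta q j₁ y₁ ∧ Theta (2 * q) j₂ y₂ ∧
  ∃ C : ℝ, ∀ N : ℕ, 1 ≤ N → -C ≤ (∑ n ∈ Icc 1 N, cf y₁ n) * ∑ n ∈ Icc 1 N, cf y₂ n

end Pool.Agent.W406.PX
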