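import Pool.Agent.W406.PX.All
import Pool.Agent.W880.PX.Sml
import Pool.Agent.W797.PX.Sums
import Pool.Agent.W199.PX.Mass
import Pool.Agent.W991.PX.Pr

/-!
# PROJECT PX: the theorem
-/

set_option autoImplicit false

namespace Pool.Agent.W406.PX

theorem strong : End.Strong :=
  strong_all Pool.Agent.W199.PX.task Pool.Agent.W991.PX.task Pool.Agent.W797.PX.Sums.task Pool.Agent.W880.PX.Sml.task

end Pool.Agent.W406.PX
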