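import Pool.Agent.W406.PX.Stmts
import Pool.Agent.H335R3.ETSelB

/-!
# PROJECT PX: from the summatory functions to the elements of the Selberg class
-/

set_option autoImplicit false

open Finset MeasureTheory

namespace Pool.Agent.W406.PX.End

open Pool.Agent.H96R3.BC (vv cf)
open Pool.Agent.H13R3.EM (Sel)

lemma cf_le_one {y : ℕ → ℝ} (hy : ∀ n, |y n| ≤ 1) (n : ℕ) : |cf y n| ≤ 1 := by
  unfold cf
  split_ifs with h
  · rw [abs_prod]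
    exact prod_le_one (fun p _ => abs_nonneg _) (fun p _ => hy p)
  · simp

theorem sel {Q j' : ℕ} {y : ℕ → ℝ} (hQ : 1 ≤ Q) (hj : 3 ≤ j') (hy : ∀ n, |y n| ≤ 1) (hT : Theta Q j' y) :
    ∃ F : Sel, F.m0 = 0 ∧ F.deg = 8 * (Q : ℝ) ∧ ∀ n : ℕ, 1 ≤ n → F.a n = ((cf y n : ℝ) : ℂ) := by
  refine Pool.Agent.H335R3.ETSelB.taskSelB Q j' y hQ (by omega) ?_ ?_ hT
  · intro ε hε
    refine ⟨1, fun n hn => (cf_le_one hy n).trans ?_⟩
    rw [one_mul]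
    exact Real.one_le_rpow (by exact_mod_cast hn) hε.le
  · intro p hp
    exact (hy p).trans (Real.one_le_rpow (by exact_mod_cast hp.one_le) (by norm_num))

lemma err_eq {F : Sel} (h0 : F.m0 = 0) {a : ℕ → ℝ} (ha : ∀ n : ℕ, 1 ≤ n → F.a n = ((a n : ℝ) : ℂ)) (x : ℝ) :
    F.err x = ((∑ n ∈ Icc 1 ⌊x⌋₊, a n : ℝ) : ℂ) := by
  unfold Sel.err Sel.res
  rw [if_pos h0, sub_zero, Complex.ofReal_sum]
  apply Finset.sum_congr rfl
  intro n hn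
  exact ha n (Finset.mem_Icc.1 hn).1

/-- two entire real elements of the Selberg class, of degrees `8 q` and `16 q`, with product of the error terms
bounded below -/
def Strong : Prop := ∃ (q : ℕ) (F₁ F₂ : Sel), 8 ≤ q ∧ F₁.deg = ((8 * q : ℕ) : ℝ) ∧ F₂.deg = ((16 * q : ℕ) : ℝ) ∧
  F₁.m0 = 0 ∧ F₂.m0 = 0 ∧ (∀ n : ℕ, 1 ≤ n → (F₁.a n).im = 0 ∧ (F₂.a n).im = 0) ∧
  (∀ x : ℝ, (F₁.err x).im = 0 ∧ (F₂.err x).im = 0) ∧
  ∃ C : ℝ, ∀ x : ℝ, -C ≤ (F₁.err x).re * (F₂.err x).re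

theorem strong_of (h : ∃ (q : ℕ) (y₁ y₂ : ℕ → ℝ) (j₁ j₂ : ℕ), 8 ≤ q ∧ 3 ≤ j₁ ∧ 3 ≤ j₂ ∧
    (∀ n, |y₁ n| ≤ 1) ∧ (∀ n, |y₂ n| ≤ 1) ∧ Theta q j₁ y₁ ∧ Theta (2 * q) j₂ y₂ ∧
    ∃ C : ℝ, ∀ N : ℕ, 1 ≤ N → -C ≤ (∑ n ∈ Icc 1 N, cf y₁ n) * ∑ n ∈ Icc 1 N, cf y₂ n) : Strong := by
  obtain ⟨q, y₁, y₂, j₁, j₂, hq, hj1, hj2, hy1, hy2, hT1, hT2, C, hC⟩ := h
  obtain ⟨F₁, h10, h1d, h1a⟩ := sel (by omega) hj1 hy1 hT1
  obtain ⟨F₂, h20, h2d, h2a⟩ := sel (by omega) hj2 hy2 hT2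
  refine ⟨q, F₁, F₂, hq, ?_, ?_, h10, h20, ?_, ?_, |C|, ?_⟩
  · rw [h1d]; push_cast; ring
  · rw [h2d]; push_cast; ring
  · intro n hn
    rw [h1a n hn, h2a n hn]
    exact ⟨Complex.ofReal_im _, Complex.ofReal_im _⟩
  · intro x
    rw [err_eq h10 h1a x, err_eq h20 h2a x]
    exact ⟨Complex.ofReal_im _, Complex.ofReal_im _⟩
  · intro x
    rw [err_eq h10 h1a x, err_eq h20 h2a x, Complex.ofReal_re, Complex.ofReal_re]
    rcases Nat.eq_zero_or_pos ⌊x⌋₊ with h | h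
    · rw [h]
      simp
    · have := hC ⌊x⌋₊ h
      have := neg_abs_le C
      have := le_abs_self C
      linarith

/-- the negation of Q1 of the problem, from the strong form -/
theorem not_of_strong (h : Strong) :
    ¬ (∀ (k : ℕ) (d : Fin k → ℕ) (F : Fin k → Sel), 2 ≤ k → StrictMono d → (∀ j, 2 ≤ d j) →
      (∀ j, (F j).deg = (d j : ℝ)) → (∀ j, ∀ n : ℕ, 1 ≤ n → ((F j).a n).im = 0) →
      ∃ δ c T₀ : ℝ, 0 < δ ∧ δ < 1 ∧ 0 < c ∧ ∀ T : ℝ, T₀ ≤ T → ∃ x₁ ∈ Set.Icc T (T + T ^ δ), ∃ x₂ ∈ Set.Icc T (T + T ^ δ),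
        c * T ^ (∑ j, ((d j : ℝ) - 1) / (2 * (d j : ℝ))) < (∏ j, (F j).err x₁).re ∧
        (∏ j, (F j).err x₂).re < -(c * T ^ (∑ j, ((d j : ℝ) - 1) / (2 * (d j : ℝ))))) := by
  intro hQ
  obtain ⟨q, F₁, F₂, hq, h1d, h2d, _, _, hre, hie, C, hC⟩ := h
  obtain ⟨δ, c, T₀, hδ, hδ1, hc, hT⟩ := hQ 2 ![8 * q, 16 * q] ![F₁, F₂] le_rfl
    (by
      intro i j hij
      fin_cases i <;> fin_cases j
      · exact absurd hij (lt_irrefl _)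
      · show 8 * q < 16 * q
        omega
      · exact absurd hij (by decide)
      · exact absurd hij (lt_irrefl _))
    (by
      intro j
      fin_cases j
      · show 2 ≤ 8 * q
        omega
      · show 2 ≤ 16 * q
        omega)
    (by
      intro j
      fin_cases j
      · exact h1d
      · exact h2d)
    (by
      intro j n hn
      fin_cases j
      · exact (hre n hn).1
      · exact (hre n hn).2)
  set σ : ℝ := ∑ j, (((![8 * q, 16 * q] : Fin 2 → ℕ) j : ℝ) - 1) / (2 * ((![8 * q, 16 * q] : Fin 2 → ℕ) j : ℝ)) with hσ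
  have hqR : (8:ℝ) ≤ q := by exact_mod_cast hq
  have hσ0 : 0 < σ := by
    rw [hσ, Fin.sum_univ_two]
    show 0 < (((8 * q : ℕ) : ℝ) - 1) / (2 * ((8 * q : ℕ) : ℝ)) + (((16 * q : ℕ) : ℝ) - 1) / (2 * ((16 * q : ℕ) : ℝ))
    push_cast
    have e1 : 0 < (8 * (q:ℝ) - 1) / (2 * (8 * q)) := div_pos (by linarith) (by linarith)
    have e2 : 0 < (16 * (q:ℝ) - 1) / (2 * (16 * q)) := div_pos (by linarith) (by linarith)
    linarith
  have ht : Filter.Tendsto (fun T : ℝ => c * T ^ σ) Filter.atTop Filter.atTop :=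
    (tendsto_rpow_atTop hσ0).const_mul_atTop hc
  obtain ⟨T, hT1, hT2⟩ := ((ht.eventually_ge_atTop C).and (Filter.eventually_ge_atTop T₀)).exists
  obtain ⟨_, _, x₂, _, _, hx⟩ := hT T hT2
  have hP : (∏ j, ((![F₁, F₂] : Fin 2 → Sel) j).err x₂).re = (F₁.err x₂).re * (F₂.err x₂).re := by
    rw [Fin.prod_univ_two]
    show (F₁.err x₂ * F₂.err x₂).re = _
    rw [Complex.mul_re, (hie x₂).1, (hie x₂).2]
    ring
  rw [hP] at hx
  have := hC x₂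
  linarith

end Pool.Agent.W406.PX.End
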