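import Pool.Agent.W406.PX.Stmts

/-!
# PROJECT PX: the final inequality
-/

set_option autoImplicit false

open Finset MeasureTheory

namespace Pool.Agent.W406.PX.Fin

open Pool.Agent.H96R3.BC (vv cf)

lemma gwn (n : ℕ) : 0 ≤ gw n := by unfold gw; split_ifs <;> positivity

lemma hmn (X n : ℕ) : 0 ≤ hm X n := by
  unfold hm
  split_ifs
  · exact Finset.prod_nonneg fun p _ => by positivity
  · exact le_rfl

lemma gw_le_one {n : ℕ} (hn : 3 ≤ n) : gw n ≤ 1 := by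
  unfold gw
  split_ifs
  · have h2 : (3:ℝ) ≤ n := by exact_mod_cast hn
    have h3 : 1 ≤ Real.log n := by
      rw [Real.le_log_iff_exp_le (by linarith)]
      have := Real.exp_one_lt_d9
      linarith
    rw [div_le_one (by positivity)]
    nlinarith
  · norm_num

lemma gw_le (n : ℕ) : gw n ≤ 2 / (Real.log n) ^ 2 := by
  unfold gw
  split_ifs
  · apply div_le_div_of_nonneg_right (by norm_num) (by positivity)
  · positivity

lemma cfp (y : ℕ → ℝ) {p : ℕ} (hp : p.Prime) : cf y p = y p := by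
  unfold cf
  rw [if_pos (Nat.prime_iff.1 hp).squarefree, Nat.Prime.primeFactors hp, prod_singleton]

lemma cf_one (y : ℕ → ℝ) : cf y 1 = 1 := by
  unfold cf
  simp

lemma cf_low {y : ℕ → ℝ} {B n : ℕ} (hy : ∀ p, p ≤ B → y p = 0) (h1 : 1 < n) (h2 : n ≤ B) : cf y n = 0 := by
  unfold cf
  split_ifs with h
  · have hm : n.minFac ∈ n.primeFactors :=
      Nat.mem_primeFactors.2 ⟨Nat.minFac_prime (by omega), Nat.minFac_dvd n, by omega⟩
    exact prod_eq_zero hm (hy _ ((Nat.minFac_le (by omega)).trans h2))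
  · rfl

lemma cf_comp {y : ℕ → ℝ} {X n : ℕ} (hy : ∀ p, p ≤ X → y p = 0) (hb : ∀ p : ℕ, |y p| ≤ 2 / (Real.log p) ^ 2)
    (hn : ¬ n.Prime) : |cf y n| ≤ hm X n := by
  unfold cf hm
  by_cases hs : Squarefree n
  · rw [if_pos hs]
    by_cases hall : ∀ p ∈ n.primeFactors, X < p
    · rw [if_pos ⟨hn, hs, hall⟩, abs_prod]
      exact prod_le_prod (fun p _ => abs_nonneg _) (fun p _ => hb p)
    · rw [if_neg (fun h => hall h.2.2)]
      push Not at hall
      obtain ⟨p, hp1, hp2⟩ := hall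
      rw [prod_eq_zero hp1 (hy p hp2), abs_zero]
  · rw [if_neg hs, abs_zero]
    split_ifs
    · exact prod_nonneg fun p _ => by positivity
    · exact le_rfl

/-- pure inequality -/
lemma fin_ineq {c₀ C' M A₁ A₂ S e : ℝ} (hc : 0 < c₀) (hc1 : c₀ ≤ 1) (hC' : 0 ≤ C') (hM : 0 ≤ M)
    (he : e = 1 ∨ e = -1) (h1 : |A₁ - S| ≤ C' + c₀ / 4 * M) (h2 : |A₂ - S| ≤ C' + c₀ / 4 * M)
    (hS : c₀ * M ≤ e * S) (hS2 : |S| ≤ M / 2) : -(C' + 4 * C' / (3 * c₀)) ^ 2 ≤ A₁ * A₂ := by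
  -- reduce to `e = 1`
  have key : ∀ a₁ a₂ t : ℝ, |a₁ - t| ≤ C' + c₀ / 4 * M → |a₂ - t| ≤ C' + c₀ / 4 * M → c₀ * M ≤ t → |t| ≤ M / 2 →
      -(C' + 4 * C' / (3 * c₀)) ^ 2 ≤ a₁ * a₂ := by
    intro a₁ a₂ t h1 h2 hS hS2
    have e1 := abs_le.1 h1
    have e2 := abs_le.1 h2
    have e3 := abs_le.1 hS2
    have hl1 : -C' + 3 * c₀ / 4 * M ≤ a₁ := by linarith [e1.1]
    have hl2 : -C' + 3 * c₀ / 4 * M ≤ a₂ := by linarith [e2.1]
    have hcM : c₀ / 4 * M ≤ M / 4 := by nlinarith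
    have hu1 : a₁ ≤ C' + M := by linarith [e1.2, e3.2]
    have hu2 : a₂ ≤ C' + M := by linarith [e2.2, e3.2]
    have hR : 0 ≤ C' + 4 * C' / (3 * c₀) := by positivity
    by_cases hpos : 0 ≤ a₁ ∧ 0 ≤ a₂
    · have := mul_nonneg hpos.1 hpos.2
      have h3 := sq_nonneg (C' + 4 * C' / (3 * c₀))
      linarith
    · have hMle : 3 * c₀ / 4 * M ≤ C' := by
        by_contra hcon
        push Not at hcon
        exact hpos ⟨by linarith, by linarith⟩
      have hM2 : M ≤ 4 * C' / (3 * c₀) := by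
        rw [le_div_iff₀ (by positivity)]
        nlinarith
      have g1 : |a₁| ≤ C' + 4 * C' / (3 * c₀) := abs_le.2 ⟨by
        have : 0 ≤ 4 * C' / (3 * c₀) := by positivity
        have : 0 ≤ 3 * c₀ / 4 * M := by positivity
        linarith, by linarith⟩
      have g2 : |a₂| ≤ C' + 4 * C' / (3 * c₀) := abs_le.2 ⟨by
        have : 0 ≤ 4 * C' / (3 * c₀) := by positivity
        have : 0 ≤ 3 * c₀ / 4 * M := by positivity
        linarith, by linarith⟩
      have g3 : |a₁ * a₂| ≤ (C' + 4 * C' / (3 * c₀)) ^ 2 := by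
        rw [abs_mul, sq]
        exact mul_le_mul g1 g2 (abs_nonneg _) hR
      exact (abs_le.1 g3).1
  rcases he with he | he
  · subst he
    exact key A₁ A₂ S h1 h2 (by linarith) hS2
  · subst he
    have := key (-A₁) (-A₂) (-S) (by rw [show -A₁ - -S = -(A₁ - S) by ring, abs_neg]; exact h1)
      (by rw [show -A₂ - -S = -(A₂ - S) by ring, abs_neg]; exact h2) (by linarith) (by rw [abs_neg]; exact hS2)
    linarith

lemma Icc_eq (N : ℕ) : Icc 1 N = Ioc 0 N := by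
  ext n
  simp only [mem_Icc, mem_Ioc]
  omega

lemma sum_split (a : ℕ → ℝ) {M N : ℕ} (h : M ≤ N) :
    ∑ n ∈ Icc 1 N, a n = ∑ n ∈ Icc 1 M, a n + ∑ n ∈ Ioc M N, a n := by
  rw [Icc_eq, Icc_eq, sum_Ioc_consecutive a (Nat.zero_le M) h]

lemma blt {q j₁ : ℕ} {b : ℕ → ℕ} (hb : Bdy q j₁ b) (hq : 1 ≤ q) {j : ℕ} (hj : j₁ ≤ j) : b j < b (j + 1) := by
  have h1 := (hb j hj).2
  have h2 := (hb (j + 1) (by omega)).1
  have h3 : j ^ (2 * q) < (j + 1) ^ (2 * q) := Nat.pow_lt_pow_left (by omega) (by omega)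
  omega

lemma bmono {q j₁ : ℕ} {b : ℕ → ℕ} (hb : Bdy q j₁ b) (hq : 1 ≤ q) {j : ℕ} (hj : j₁ ≤ j) : b j₁ ≤ b j := by
  induction j, hj using Nat.le_induction with
  | base => exact le_rfl
  | succ j hj ih => exact ih.trans (blt hb hq hj).le

/-- error of one system -/
lemma sys_err {q j₁ : ℕ} {b : ℕ → ℕ} {s x : ℕ → ℝ} {ε K C : ℝ} (hq : 1 ≤ q) (hK : 1 ≤ K) (hε : 0 ≤ ε) (hε2 : ε ≤ 1 / 2)
    (hb : Bdy q j₁ b) (hg : GoodB K q j₁ b) (hss : ∀ n, s n ≠ 0 → n.Prime ∧ b j₁ < n) (hsb : ∀ n, |s n| ≤ gw n / 2)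
    (hsc : ∀ j, j₁ ≤ j → ∑ n ∈ Ioc (b j) (b (j + 1)), s n = 0)
    (hxs : ∀ n, x n ≠ 0 → n.Prime ∧ b j₁ < n) (hxb : ∀ n, |x n| ≤ ε * gw n)
    (hC : ∀ j : ℕ, j₁ ≤ j → |∑ n ∈ Icc 1 (b j), cf (fun n => s n + x n) n| ≤ C)
    {j N : ℕ} (hj : j₁ ≤ j) (h1 : b j ≤ N) (h2 : N ≤ b (j + 1)) :
    |∑ n ∈ Icc 1 N, cf (fun n => s n + x n) n - ∑ n ∈ Ioc (b j) N, s n| ≤
      C + 1 + (ε + 1 / K) * min (Gs (b j) N) (Gs N (b (j + 1))) := by
  set y : ℕ → ℝ := fun n => s n + x n with hy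
  set X := j₁ ^ (2 * q) with hX
  have hXb : X ≤ b j₁ := (hb j₁ le_rfl).1
  have hy0 : ∀ p, p ≤ X → y p = 0 := by
    intro p hp
    have e1 : s p = 0 := by
      by_contra h
      have := (hss p h).2
      omega
    have e2 : x p = 0 := by
      by_contra h
      have := (hxs p h).2
      omega
    show s p + x p = 0
    rw [e1, e2, add_zero]
  have hyb : ∀ p : ℕ, |y p| ≤ 2 / (Real.log p) ^ 2 := by
    intro p
    have e1 := hsb p
    have e2 := hxb p
    have e3 := gwn p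
    have e4 : ε * gw p ≤ gw p / 2 := by nlinarith
    calc |y p| ≤ |s p| + |x p| := abs_add_le _ _
      _ ≤ gw p := by linarith
      _ ≤ _ := gw_le p
  have hpt : ∀ n, |cf y n - s n| ≤ ε * gw n + hm X n := by
    intro n
    by_cases hn : n.Prime
    · rw [cfp y hn]
      have e1 : y n - s n = x n := by rw [hy]; ring
      rw [e1]
      have := hxb n
      have := hmn X n
      linarith
    · have e1 : s n = 0 := by
        by_contra h
        exact hn (hss n h).1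
      rw [e1, sub_zero]
      have e2 := cf_comp hy0 hyb hn
      have e3 : 0 ≤ ε * gw n := mul_nonneg hε (gwn n)
      linarith
  have hint : ∀ a c : ℕ, |∑ n ∈ Ioc a c, cf y n - ∑ n ∈ Ioc a c, s n| ≤ ε * Gs a c + Hs X a c := by
    intro a c
    rw [← sum_sub_distrib]
    refine (abs_sum_le_sum_abs _ _).trans ((sum_le_sum fun n _ => hpt n).trans (le_of_eq ?_))
    rw [sum_add_distrib, ← mul_sum]
    rfl
  have hGL : 0 ≤ Gs (b j) N := sum_nonneg fun n _ => gwn n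
  have hGR : 0 ≤ Gs N (b (j + 1)) := sum_nonneg fun n _ => gwn n
  have hKp : 0 < K := by linarith
  obtain ⟨g1, g2⟩ := hg j hj N h1 h2
  have hHL : Hs X (b j) N ≤ 1 / K * Gs (b j) N := by
    rw [one_div, ← div_eq_inv_mul, le_div_iff₀ hKp]
    linarith
  have hHR : Hs X N (b (j + 1)) ≤ 1 / K * Gs N (b (j + 1)) + 1 := by
    have e1 : Hs X N (b (j + 1)) ≤ (Gs N (b (j + 1)) + 1) / K := by
      rw [le_div_iff₀ hKp]
      linarith
    have e2 : (Gs N (b (j + 1)) + 1) / K = 1 / K * Gs N (b (j + 1)) + 1 / K := by ring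
    have e3 : 1 / K ≤ 1 := by rw [div_le_one hKp]; exact hK
    linarith
  have hL : |∑ n ∈ Icc 1 N, cf y n - ∑ n ∈ Ioc (b j) N, s n| ≤ C + 1 + (ε + 1 / K) * Gs (b j) N := by
    rw [sum_split (cf y) h1]
    have e1 := hC j hj
    have e2 := hint (b j) N
    have e3 : ∑ n ∈ Icc 1 (b j), cf y n + ∑ n ∈ Ioc (b j) N, cf y n - ∑ n ∈ Ioc (b j) N, s n =
      ∑ n ∈ Icc 1 (b j), cf y n + (∑ n ∈ Ioc (b j) N, cf y n - ∑ n ∈ Ioc (b j) N, s n) := by ring
    rw [e3]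
    refine (abs_add_le _ _).trans ?_
    nlinarith
  have hR : |∑ n ∈ Icc 1 N, cf y n - ∑ n ∈ Ioc (b j) N, s n| ≤ C + 1 + (ε + 1 / K) * Gs N (b (j + 1)) := by
    have e1 := hC (j + 1) (by omega)
    have e2 := hint N (b (j + 1))
    have e3 := sum_split (cf y) h2
    have e4 := hsc j hj
    rw [← sum_Ioc_consecutive s h1 h2] at e4
    have e5 : ∑ n ∈ Icc 1 N, cf y n - ∑ n ∈ Ioc (b j) N, s n =
      ∑ n ∈ Icc 1 (b (j + 1)), cf y n + -(∑ n ∈ Ioc N (b (j + 1)), cf y n - ∑ n ∈ Ioc N (b (j + 1)), s n) := by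
      rw [e3]; linarith
    rw [e5]
    refine (abs_add_le _ _).trans ?_
    rw [abs_neg]
    nlinarith
  rcases min_choice (Gs (b j) N) (Gs N (b (j + 1))) with h | h
  · rw [h]; exact hL
  · rw [h]; exact hR

theorem task : TaskFin := by
  intro hGood hForce hMach
  obtain ⟨qG, hG⟩ := hGood
  obtain ⟨qF, hF⟩ := hForce
  obtain ⟨qM, hM⟩ := hMach
  set q := max (max qG qF) (max qM 8) with hqdef
  have hqG : qG ≤ q := by omega
  have hqF : qF ≤ q := by omega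
  have hqM : qM ≤ q := by omega
  have hq8 : 8 ≤ q := by omega
  obtain ⟨m, hm, c, hc, JF, hF1⟩ := hF q hqF
  set c₀ := min c 1 with hc₀
  have hc₀p : 0 < c₀ := lt_min hc one_pos
  have hc₀1 : c₀ ≤ 1 := min_le_right _ _
  have hc₀c : c₀ ≤ c := min_le_left _ _
  obtain ⟨JG, hG1⟩ := hG q hqG (8 / c₀) (by positivity)
  have hεp : 0 < c₀ / 8 := by positivity
  obtain ⟨J1, hM1⟩ := hM q hqM q (Or.inl rfl) m hm (c₀ / 8) hεp
  obtain ⟨J2, hM2⟩ := hM q hqM (2 * q) (Or.inr rfl) m hm (c₀ / 8) hεp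
  set j₀ := max (max JF JG) (max (max J1 J2) 3) with hj₀
  have hj3 : 3 ≤ j₀ := by omega
  have hle : j₀ ≤ j₀ ^ 2 := Nat.le_self_pow (by norm_num) _
  obtain ⟨b, hb, hgb⟩ := hG1 (j₀ ^ 2) (le_trans (by omega) hle)
  obtain ⟨s, hs1, hs2, hs3⟩ := hF1 j₀ (by omega) b hb
  obtain ⟨x1, hx1s, hx1b, hT1, C1, hC1⟩ := hM1 (j₀ ^ 2) (j₀ ^ 2) (le_trans (by omega) hle) rfl b hb s hs1
  obtain ⟨x2, hx2s, hx2b, hT2, C2, hC2⟩ := hM2 (j₀ ^ 2) j₀ (by omega) (by rw [← pow_mul]) b hb s hs2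
  have hb3 : 3 ≤ b (j₀ ^ 2) := by
    have e1 := (hb (j₀ ^ 2) le_rfl).1
    have e2 : j₀ ^ 2 ≤ (j₀ ^ 2) ^ (2 * q) := Nat.le_self_pow (by omega) _
    omega
  have hy1 : ∀ x : ℕ → ℝ, (∀ n, x n ≠ 0 → n.Prime ∧ b (j₀ ^ 2) < n) → (∀ n, |x n| ≤ c₀ / 8 * gw n) →
      ∀ n, |s n + x n| ≤ 1 := by
    intro x hxs hxb n
    by_cases hn : b (j₀ ^ 2) < n
    · have e1 := hs1.bd n
      have e2 := hxb n
      have e3 := gw_le_one (n := n) (by omega)
      have e4 := gwn n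
      refine (abs_add_le _ _).trans ?_
      nlinarith
    · have e1 : s n = 0 := by
        by_contra h
        exact hn (hs1.supp n h).2
      have e2 : x n = 0 := by
        by_contra h
        exact hn (hxs n h).2
      rw [e1, e2]
      simp
  have hy0 : ∀ x : ℕ → ℝ, (∀ n, x n ≠ 0 → n.Prime ∧ b (j₀ ^ 2) < n) → ∀ p, p ≤ b (j₀ ^ 2) → s p + x p = 0 := by
    intro x hxs p hp
    have e1 : s p = 0 := by
      by_contra h
      have := (hs1.supp p h).2
      omega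
    have e2 : x p = 0 := by
      by_contra h
      have := (hxs p h).2
      omega
    rw [e1, e2, add_zero]
  refine ⟨q, fun n => s n + x1 n, fun n => s n + x2 n, j₀ ^ 2, j₀, hq8, hj3.trans hle, hj3, hy1 x1 hx1s hx1b,
    hy1 x2 hx2s hx2b, hT1, hT2, ?_⟩
  set C' := max (max C1 C2) 0 + 1 with hC'
  have hC'0 : 0 ≤ C' := by positivity
  refine ⟨1 + (C' + 4 * C' / (3 * c₀)) ^ 2, fun N hN => ?_⟩
  by_cases hNb : N ≤ b (j₀ ^ 2)
  · -- small `N`
    have h1 : ∀ x : ℕ → ℝ, (∀ n, x n ≠ 0 → n.Prime ∧ b (j₀ ^ 2) < n) →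
        ∑ n ∈ Icc 1 N, cf (fun n => s n + x n) n = 1 := by
      intro x hxs
      rw [Finset.sum_eq_single 1]
      · exact cf_one _
      · intro n hn hn1
        rw [mem_Icc] at hn
        exact cf_low (hy0 x hxs) (by omega) (hn.2.trans hNb)
      · intro h
        exact absurd (mem_Icc.2 ⟨le_rfl, hN⟩) h
    rw [h1 x1 hx1s, h1 x2 hx2s]
    have := sq_nonneg (C' + 4 * C' / (3 * c₀))
    linarith
  · push Not at hNb
    -- the cell
    have hub : ∃ j, N ≤ b (j₀ ^ 2 + j) := by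
      refine ⟨N, ?_⟩
      have e1 := (hb (j₀ ^ 2 + N) (by omega)).1
      have e2 : j₀ ^ 2 + N ≤ (j₀ ^ 2 + N) ^ (2 * q) := Nat.le_self_pow (by omega) _
      omega
    have hj1 := Nat.find_spec hub
    have hj2 := fun i => Nat.find_min hub (m := i)
    obtain ⟨k, hk⟩ : ∃ k, Nat.find hub = k + 1 := by
      refine ⟨Nat.find hub - 1, ?_⟩
      have : Nat.find hub ≠ 0 := by
        intro h
        rw [h, add_zero] at hj1
        omega
      omega
    have hlow : b (j₀ ^ 2 + k) ≤ N := by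
      have := hj2 k (by omega)
      omega
    have hup : N ≤ b (j₀ ^ 2 + k + 1) := by
      rw [hk, ← add_assoc] at hj1
      exact hj1
    set j := j₀ ^ 2 + k with hj
    have hjj : j₀ ^ 2 ≤ j := by omega
    obtain ⟨e, he, hes⟩ := hs3 j hjj
    set S := ∑ n ∈ Ioc (b j) N, s n with hS
    set M := min (Gs (b j) N) (Gs N (b (j + 1))) with hM
    have hGL : 0 ≤ Gs (b j) N := sum_nonneg fun n _ => gwn n
    have hGR : 0 ≤ Gs N (b (j + 1)) := sum_nonneg fun n _ => gwn n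
    have hM0 : 0 ≤ M := le_min hGL hGR
    have hK1 : 1 ≤ 8 / c₀ := by
      rw [le_div_iff₀ hc₀p]
      linarith
    have hε2 : c₀ / 8 ≤ 1 / 2 := by linarith
    have hq1 : 1 ≤ q := by omega
    have hconst : c₀ / 8 + 1 / (8 / c₀) = c₀ / 4 := by
      field_simp
      ring
    have r1 := sys_err hq1 hK1 hεp.le hε2 hb hgb hs1.supp hs1.bd hs1.cell hx1s hx1b hC1 hjj hlow hup
    have r2 := sys_err hq1 hK1 hεp.le hε2 hb hgb hs2.supp hs2.bd hs2.cell hx2s hx2b hC2 hjj hlow hup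
    rw [hconst] at r1 r2
    have hC1' : C1 + 1 ≤ C' := by
      have := (le_max_left C1 C2).trans (le_max_left _ 0)
      linarith
    have hC2' : C2 + 1 ≤ C' := by
      have := (le_max_right C1 C2).trans (le_max_left _ 0)
      linarith
    have r1' : |∑ n ∈ Icc 1 N, cf (fun n => s n + x1 n) n - S| ≤ C' + c₀ / 4 * M := by
      refine r1.trans ?_
      linarith
    have r2' : |∑ n ∈ Icc 1 N, cf (fun n => s n + x2 n) n - S| ≤ C' + c₀ / 4 * M := by
      refine r2.trans ?_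
      linarith
    have hSe : c₀ * M ≤ e * S := (mul_le_mul_of_nonneg_right hc₀c hM0).trans (hes N hlow hup)
    have hSl : |S| ≤ Gs (b j) N / 2 := by
      refine (abs_sum_le_sum_abs _ _).trans ((sum_le_sum fun n _ => hs1.bd n).trans (le_of_eq ?_))
      rw [← sum_div]
      rfl
    have hSr : |S| ≤ Gs N (b (j + 1)) / 2 := by
      have e4 := hs1.cell j hjj
      rw [← sum_Ioc_consecutive s hlow hup] at e4
      have e5 : S = -∑ n ∈ Ioc N (b (j + 1)), s n := by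
        rw [hS]; linarith
      rw [e5, abs_neg]
      refine (abs_sum_le_sum_abs _ _).trans ((sum_le_sum fun n _ => hs1.bd n).trans (le_of_eq ?_))
      rw [← sum_div]
      rfl
    have hS2 : |S| ≤ M / 2 := by
      rcases min_choice (Gs (b j) N) (Gs N (b (j + 1))) with h | h
      · rw [hM, h]; exact hSl
      · rw [hM, h]; exact hSr
    have := fin_ineq hc₀p hc₀1 hC'0 hM0 he r1' r2' hSe hS2
    linarith

end Pool.Agent.W406.PX.Fin
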