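import Pool.Agent.W406.PX.Stmts

/-!
# PROJECT PX: moments of the cells
-/

set_option autoImplicit false

open Finset MeasureTheory

namespace Pool.Agent.W406.PX.Mom

open Pool.Agent.H96R3.BC (vv cf)

lemma vv_mono (Q j' : ℕ) {m n : ℕ} (h : m ≤ n) : vv Q j' m ≤ vv Q j' n := by
  unfold vv
  apply Real.rpow_le_rpow (by positivity) _ (by positivity)
  apply div_le_div_of_nonneg_right _ (by positivity)
  exact_mod_cast h

lemma vv_pos {Q j' n : ℕ} (hj : 1 ≤ j') (hn : 1 ≤ n) : 0 < vv Q j' n := by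
  unfold vv
  have : (0:ℝ) < n := by exact_mod_cast hn
  have : (0:ℝ) < j' := by exact_mod_cast hj
  positivity

lemma node_mem {Q j' : ℕ} {B : ℕ → ℕ} {i n : ℕ} (hn : n ∈ Ioc (B i) (B (i + 1))) :
    be Q j' B i ≤ vv Q j' n ∧ vv Q j' n ≤ be Q j' B (i + 1) := by
  rw [mem_Ioc] at hn
  exact ⟨vv_mono Q j' hn.1.le, vv_mono Q j' hn.2⟩

theorem task : TaskMom := by
  intro Q j' B w ε ω hS c f hf i P hP
  have hj1 : 1 ≤ j' := by have := hS.hj; omega
  set a := be Q j' B i with ha
  set a' := be Q j' B (i + 1) with ha'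
  have haa : a ≤ a' := vv_mono Q j' (hS.mono (Nat.lt_succ_self i)).le
  set C := Ioc (B i) (B (i + 1)) with hC
  set Z := Zf Q j' B f i with hZ
  set Z' := Zf Q j' B f (i + 1) with hZ'
  set R : ℕ → ℝ := fun p => (∫ u in a..a', f u * w p u) + Z * w p a - Z' * w p a' -
    ∑ n ∈ C, c n * (vv Q j' n) ^ 2 * w p (vv Q j' n) with hR
  have hPc : Continuous fun u : ℝ => P.eval u := P.continuous
  have hRp : ∀ p ∈ C, (if p.Prime then XL Q j' B w c f i p else 0) * (vv Q j' p) ^ 2 = R p := by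
    intro p hp
    have hp1 : 1 ≤ p := by
      rw [hC, mem_Ioc] at hp
      omega
    split_ifs with h
    · unfold XL
      rw [div_mul_cancel₀ _ (pow_ne_zero 2 (vv_pos hj1 hp1).ne')]
    · have hw0 : ∀ u, w p u = 0 := by
        intro u
        by_contra h2
        exact h (hS.wsupp p u h2).1
      rw [hR]
      simp [hw0]
  have hmomu : ∀ u, a ≤ u → u ≤ a' → ∑ p ∈ C, w p u * P.eval (vv Q j' p) = P.eval u :=
    fun u h1 h2 => hS.wmom i u h1 h2 P hP
  have hI : ∑ p ∈ C, (∫ u in a..a', f u * w p u) * P.eval (vv Q j' p) = ∫ u in a..a', f u * P.eval u := by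
    have e1 : ∀ p ∈ C, (∫ u in a..a', f u * w p u) * P.eval (vv Q j' p) =
        ∫ u in a..a', f u * w p u * P.eval (vv Q j' p) := by
      intro p _
      rw [intervalIntegral.integral_mul_const]
    rw [Finset.sum_congr rfl e1, ← intervalIntegral.integral_finsetSum]
    · apply intervalIntegral.integral_congr
      intro u hu
      rw [Set.uIcc_of_le haa] at hu
      simp only []
      rw [← hmomu u hu.1 hu.2, mul_sum]
      apply Finset.sum_congr rfl
      intro p _
      ring
    · intro p _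
      exact ((hf.mul (hS.wcont p)).mul continuous_const).intervalIntegrable _ _
  have hSum : ∑ p ∈ C, R p * P.eval (vv Q j' p) = (∫ u in a..a', f u * P.eval u) + Z * P.eval a - Z' * P.eval a' -
      ∑ n ∈ C, c n * (vv Q j' n) ^ 2 * P.eval (vv Q j' n) := by
    have e1 : ∀ p ∈ C, R p * P.eval (vv Q j' p) = (∫ u in a..a', f u * w p u) * P.eval (vv Q j' p) +
        Z * (w p a * P.eval (vv Q j' p)) - Z' * (w p a' * P.eval (vv Q j' p)) -
        ∑ n ∈ C, c n * (vv Q j' n) ^ 2 * (w p (vv Q j' n) * P.eval (vv Q j' p)) := by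
      intro p _
      simp only [hR]
      rw [sub_mul, sub_mul, add_mul, sum_mul]
      congr 1
      · ring
      · apply Finset.sum_congr rfl
        intro n _
        ring
    rw [Finset.sum_congr rfl e1, sum_sub_distrib, sum_sub_distrib, sum_add_distrib, hI, ← mul_sum, ← mul_sum,
      hmomu a le_rfl haa, hmomu a' haa le_rfl, sum_comm]
    congr 1
    apply Finset.sum_congr rfl
    intro n hn
    rw [← mul_sum]
    obtain ⟨h1, h2⟩ := node_mem (Q := Q) (j' := j') hn
    rw [hmomu _ h1 h2]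
  unfold cZ
  have e2 : ∑ n ∈ C, co Q j' B w c f i n * (vv Q j' n) ^ 2 * P.eval (vv Q j' n) =
      ∑ n ∈ C, c n * (vv Q j' n) ^ 2 * P.eval (vv Q j' n) + ∑ p ∈ C, R p * P.eval (vv Q j' p) := by
    rw [← sum_add_distrib]
    apply Finset.sum_congr rfl
    intro n hn
    rw [← hRp n hn]
    unfold co
    ring
  show ∑ n ∈ C, co Q j' B w c f i n * (vv Q j' n) ^ 2 * P.eval (vv Q j' n) - Z * P.eval a + Z' * P.eval a' -
    ∫ u in a..a', f u * P.eval u = 0
  rw [e2, hSum]
  ring

end Pool.Agent.W406.PX.Mom
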