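import Pool.Agent.W406.PX.Asm
import Pool.Agent.W406.PX.End
import Pool.Agent.W406.PX.Fin
import Pool.Agent.W406.PX.Mom
import Pool.Agent.W486.PX.Max
import Pool.Agent.W880.PX.Good
import Pool.Agent.W864.PX.Null
import Pool.Agent.W140.PX.Cellf
import Pool.Agent.W573.PX.Forcea
import Pool.Agent.W918.PX.Mss
import Pool.Agent.W978.PX.Blz
import Pool.Agent.W721.PX.Fst
import Pool.Agent.W748.PX.Flz
import Pool.Agent.W571.PX.Lin
import Pool.Agent.W414.PX.Src
import Pool.Agent.W748.PX.Fix
import Pool.Agent.W589.PX.Theta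
import Pool.Agent.W721.PX.Bdd
import Pool.Agent.W683.PX.Geom
import Pool.Agent.W571.PX.Geom2
import Pool.Agent.W621.PX.Wts
import Pool.Agent.H195R3.BCLagA

/-!
# PROJECT PX: everything together
-/

set_option autoImplicit false

namespace Pool.Agent.W406.PX

theorem strong_all (hMass : TaskMass) (hPr : TaskPr) (hSums : TaskSums) (hSml : TaskSml) : End.Strong := by
  have hG : TaskGeom := Pool.Agent.W683.PX.task
  have hMss : TaskMss := Pool.Agent.W918.PX.task
  have hBlz : Blz := Pool.Agent.W978.PX.task Mom.task hMss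
  have hFlz : Flz := Pool.Agent.W748.PX.FlzT.task hBlz Pool.Agent.W721.PX.Fst.task
  have hGood : Good := Pool.Agent.W880.PX.Good.task hMass hPr Pool.Agent.W486.PX.Max.task
  have hForce : Force := Pool.Agent.W573.PX.task hPr Pool.Agent.W864.PX.task Pool.Agent.W140.PX.task hG
    Pool.Agent.W571.PX.Geom2.task
  have hM : Machine := machine Mom.task hMss hBlz hFlz Pool.Agent.W571.PX.Lin.task Pool.Agent.W414.PX.task
    Pool.Agent.W748.PX.task Pool.Agent.W589.PX.task Pool.Agent.W721.PX.Bdd.task hG hSums hSml hMass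
    Pool.Agent.H195R3.BC.lagA hPr Pool.Agent.W621.PX.task
  exact End.strong_of (Fin.task hGood hForce hM)

end Pool.Agent.W406.PX
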